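import Pool.Agent.Run7.h700.PC.SysEps

set_option autoImplicit false

open Finset Polynomial Pool.Agent.W432.TC Pool.Agent.W432.PC
open Pool.Agent.Y227.SS Pool.Agent.R340.SY Pool.Agent.Run7.h700.PC

/-!
# Systems of any rank on the thrice punctured line: large primes can be removed from the denominators
# of the exponents

Let `∇ = d/dt - (b / t + c / (t - 1))` be a system of rank `r` (reducible or not) with rational exponents
`e`, over a domain of finite type over `ℤ`, whose `p`-curvatures vanish for most primes. By a starting
result all the conjugates `a e` are the weights of semistable parabolic bundles of parabolic degree zero.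
Let `S` be a set of primes greater than a bound which depends only on the rank, and let `e = e' + e''`,
where the denominators of the `e'` are composed of primes in `S` and those of the `e''` of other primes
(which may be large too). Then all the conjugates of `e''` are again the weights of semistable parabolic
bundles, as if they were the exponents of a system with vanishing `p`-curvatures. If at one of the
three points all the differences of the exponents have denominators composed of primes in `S`, it
follows that the exponents `e''` at the two other points are inverse to each other, with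
multiplicities, up to a shift.

For a system with finite monodromy group `G` this corresponds to the theorem of Feit and Thompson: for
the primes `> 2 r + 1` there is an abelian normal Hall subgroup `H`. If only two of the singular points
have exponent differences with primes outside of `S` in the denominators, then `G / H` is generated by
the images of their local monodromies, which are inverse to each other (up to scalars).

Proof. The set of all torsion points all whose conjugates are weights of semistable bundles is covered
by finitely many torsion cosets which consist of weights of semistable bundles (equidistribution of the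
conjugates, and the set of the weights of semistable bundles is closed). If the primes in `S` do not
divide the denominators of the rational points of these cosets, then the coset which contains `e`
contains `e''` as well. The last statement follows from the inequalities for line subbundles.
-/

namespace Pool.Agent.Results.MP_5e5ff1_ag.LargePrimesRemoved

universe u

/-- The three points. -/
def point : Fin 3 → Option (Fin 2) := ![some 0, some 1, none]

lemma point_ne : ∀ p q : Fin 3, p ≠ q → point p ≠ point q := by decide

lemma expo_point {r : ℕ} (lam : Fin 3 → Fin r → ℚ) (x : Fin 3) (l : Fin r) :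
    expo (fun j : Fin 2 => lam j.castSucc) (fun l => -lam 2 l) (point x) l = lam x l := by
  fin_cases x
  · rfl
  · rfl
  · exact neg_neg _

/-- For every rank `r` there are an `ε > 0` and a number `B` such that the following holds. Let
`∇ = d/dt - (b / t + c / (t - 1))` be a system of rank `r` over a domain `R` of characteristic zero and of
finite type over `ℤ`, with rational exponents `lam 0 l` at `0` (the eigenvalues of `b`), `lam 1 l` at `1`
(the eigenvalues of `c`) and `lam 2 l` at infinity (the eigenvalues of `-(b + c)`). Nothing is assumed on
irreducibility or on the accessory parameters. Let `S` be a set of primes greater than `B`, and let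
`lam = lam' + lam''`, where the denominators of the `lam' x l` are composed of primes in `S` and those of
the `lam'' x l` of other primes. Then one of the following holds.

(1) For every common denominator `N` of the exponents there is a set of at least `ε φ(N)` residue
classes modulo `N` such that the `p`-curvature is nonzero at every closed point of `Spec R` whose residue
characteristic is a large prime in one of these classes; in particular the `p`-curvatures do not
vanish on a dense open subset of `Spec R`.

(2) For every common denominator `M` of the `lam'' x l` and every `a` prime to `M` the numbers `a lam''`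
are, modulo the integers, the weights of a semistable parabolic bundle of parabolic degree zero on
the projective line over `ℂ`; and if `x, y, z` are the three points, in any order, and the
differences of the exponents `lam z l` at `z` have denominators composed of primes in `S`, then the
numbers `lam'' x l` and `-lam'' z k - lam'' y l` are the same modulo the integers, with multiplicities,
for every `k`. -/
theorem result (r : ℕ) : ∃ (ε : ℝ) (B : ℕ), 0 < ε ∧
    ∀ (R : Type u) [CommRing R] [IsDomain R] [CharZero R] [Algebra.FiniteType ℤ R]
    (b c : Matrix (Fin r) (Fin r) R) (lam : Fin 3 → Fin r → ℚ),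
    HasExponents b (lam 0) → HasExponents c (lam 1) → HasExponents (b + c) (fun l => -lam 2 l) →
    ∀ S : Set ℕ, (∀ p ∈ S, B < p) → ∀ lam' lam'' : Fin 3 → Fin r → ℚ,
    (∀ x l, lam x l = lam' x l + lam'' x l) →
    (∀ x l, DenIn S (lam' x l)) → (∀ x l, DenOut S (lam'' x l)) →
    ((∀ N : ℕ, 0 < N → (∀ x l, ∃ z : ℤ, (N : ℚ) * lam x l = z) →
        BadClasses ![0, 1] ![b, c] N ε 1) ∧ ¬ CondII (![0, 1] : Fin 2 → R) ![b, c]) ∨
    ((∀ M : ℕ, 0 < M → (∀ x l, ∃ z : ℤ, (M : ℚ) * lam'' x l = z) → ∀ a : ℤ, IsCoprime a (M : ℤ) →
        SemistableWeights ℂ (fun (j : Fin 2) l => (a : ℝ) * lam'' j.castSucc l)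
          (fun l => -((a : ℝ) * lam'' 2 l))) ∧
      ∀ x y z : Fin 3, x ≠ y → y ≠ z → x ≠ z → (∀ l l', DenIn S (lam z l - lam z l')) →
        ∀ (k : Fin r) (t : ℚ),
          (univ.filter fun l => (lam'' x l - t).den = 1).card =
          (univ.filter fun l => (lam'' y l + t + lam'' z k).den = 1).card) := by
  classical
  obtain ⟨ε, hε, hor⟩ := sys_or.{u} 2 r
  obtain ⟨B, 𝓛, -, hB⟩ := uniform_part 2 r
  refine ⟨ε, B, hε, ?_⟩
  intro R _ _ _ _ b c lam h0 h1 h2 S hS lam' lam'' hsum hin hout
  have hα : ∀ i j : Fin 2, i ≠ j → IsUnit ((![0, 1] : Fin 2 → R) i - ![0, 1] j) := by
    intro i j hij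
    fin_cases i <;> fin_cases j
    · exact absurd rfl hij
    · simp
    · simp
    · exact absurd rfl hij
  have hlam : ∀ j : Fin 2, HasExponents ((![b, c] : Fin 2 → Matrix (Fin r) (Fin r) R) j)
      (lam j.castSucc) := by
    intro j
    fin_cases j
    · exact h0
    · exact h1
  have hphi : HasExponents (∑ j, (![b, c] : Fin 2 → Matrix (Fin r) (Fin r) R) j)
      (fun l => -lam 2 l) := by
    rw [Fin.sum_univ_two]
    exact h2
  rcases hor R ![0, 1] ![b, c] (fun j : Fin 2 => lam j.castSucc) (fun l => -lam 2 l) hα hlam hphi
    with h | ⟨N, hN, hN1, hN2, hc⟩
  · left
    refine ⟨fun N hN hNx => h.1 N hN (fun j l => hNx _ l) fun l => ?_, h.2⟩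
    obtain ⟨z, hz⟩ := hNx 2 l
    exact ⟨-z, by push_cast; rw [← hz]; ring⟩
  right
  obtain ⟨hA, hT⟩ := hB (fun j : Fin 2 => lam j.castSucc) (fun l => -lam 2 l) N hN hN1 hN2 hc S hS
    (fun j : Fin 2 => lam' j.castSucc) (fun j : Fin 2 => lam'' j.castSucc)
    (fun l => -lam' 2 l) (fun l => -lam'' 2 l) (fun j l => hsum _ l)
    (fun l => by rw [hsum 2 l]; ring) (fun j l => hin _ l)
    (fun l => by
      intro p hp hd
      rw [Rat.den_neg_eq_den] at hd
      exact hin 2 l p hp hd) (fun j l => hout _ l) (fun l => (hout 2 l).neg)
  constructor
  · intro M hM hMx a ha
    have hcop : ∀ x l, IsCoprime a ((lam'' x l).den : ℤ) := fun x l =>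
      IsCoprime.of_isCoprime_of_dvd_right ha (by
        exact_mod_cast (den_dvd_iff hM (lam'' x l)).1 (hMx x l))
    obtain ⟨Λ, -, -, hΛ⟩ := hA a (fun j l => hcop _ l) (fun l => by
      rw [Rat.den_neg_eq_den]
      exact hcop 2 l)
    refine hΛ _ _ fun v _ => ⟨0, ?_⟩
    rw [Int.cast_zero]
    refine sum_eq_zero fun i _ => ?_
    rcases i with ⟨j, l⟩ | l
    · simp [vec]
    · simp [vec]
  · intro x y z hxy hyz hxz hz k t
    have hpt : ∀ p q : Fin 3, p ≠ q → point p ≠ point q := point_ne
    have hthird : ∀ q : Option (Fin 2), q ≠ point x → q ≠ point y → q = point z := by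
      intro q hq1 hq2
      have hq : ∃ w, q = point w := by
        rcases q with _ | j
        · exact ⟨2, rfl⟩
        · fin_cases j
          · exact ⟨0, rfl⟩
          · exact ⟨1, rfl⟩
      obtain ⟨w, rfl⟩ := hq
      have hw1 : w ≠ x := fun h => hq1 (by rw [h])
      have hw2 : w ≠ y := fun h => hq2 (by rw [h])
      have h1 : (w : ℕ) ≠ x := fun h => hw1 (Fin.ext h)
      have h2 : (w : ℕ) ≠ y := fun h => hw2 (Fin.ext h)
      have h3 : (x : ℕ) ≠ y := fun h => hxy (Fin.ext h)
      have h4 : (y : ℕ) ≠ z := fun h => hyz (Fin.ext h)
      have h5 : (x : ℕ) ≠ z := fun h => hxz (Fin.ext h)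
      have : w = z := Fin.ext (by omega)
      rw [this]
    have h3 := hT (point x) (point y) (hpt x y hxy) (fun q hq1 hq2 l l' => by
      rw [hthird q hq1 hq2, expo_point, expo_point]
      exact hz l l') (fun _ => k) t
    have herase : (univ.erase (point x)).erase (point y) = {point z} := by
      ext q
      simp only [mem_erase, mem_univ, and_true, mem_singleton]
      constructor
      · rintro ⟨hq2, hq1⟩
        exact hthird q hq1 hq2
      · rintro rfl
        exact ⟨hpt z y hyz.symm, hpt z x hxz.symm⟩
    rw [herase, sum_singleton] at h3
    simp only [expo_point] at h3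
    exact h3

end Pool.Agent.Results.MP_5e5ff1_ag.LargePrimesRemoved
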