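import Pool.Agent.Run7.h850.PE.Sys4

set_option autoImplicit false

open Pool.Agent.W432.PC Run7.h850.PC Run7.h850.PE

/-!
# Rank four systems on the thrice punctured line with exponents of arbitrary denominators

For a rational number `q` with denominator `n` let `gam q` be the product of the numbers `-p` for the
primes `p` dividing `n`, divided by `n ^ 2`. Let `∇ = d/dt - (b / t + c / (t - 1))` be a system of rank
four over a domain `R` of characteristic zero, with rational exponents `lam x l`, `l = 0, 1, 2, 3`, at
the three points `x`, and let the exponents at one of the three points, `z`, be congruent in pairs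
modulo the integers: `z 0 = z 1`, `z 2 = z 3` (spectral type `1111, 1111, 22`; such systems are not
rigid, they have one accessory parameter, which is arbitrary here). Let `x`, `y` be the exponents at
the two other points. Assume that the twelve differences of the exponents `x` and `y`, the difference
`z 2 - z 0`, the thirty-two sums of three exponents and the eighteen sums of two triples of exponents
different at every point are not integers (no resonance). We prove an inequality between the
denominators of these sixty-three numbers: if the `p`-curvatures vanish, then

`2 ∑ gam (sums) ≥ 7 ∑ gam (differences) + 16 gam (z 2 - z 0) + 253 / 340`,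

and in general the proportion of the residue classes modulo a common denominator of the exponents in
which the `p`-curvatures are not zero is at least `85 / 25764` times the difference between the right
side and the left side. There is no restriction on the denominators; small and even ones are allowed.
The starting result on these systems needs differences with denominators at least `3000` and sums with
denominators at least `400000`, or denominators without prime factors below `59`. For denominators at
least `269`, or without prime factors below `13`, the inequality is enough.

Proof. If the `p`-curvatures vanish for infinitely many primes `p` with `a p = -1` and with `a p = 1`,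
the numbers `a λ` (`λ` the exponents) satisfy the inequalities of a stable parabolic bundle of degree
zero for the subbundles of rank one, two and three (a starting result). The quadratic function
`K = 7 ∑ ⟨a d⟩ + 16 ⟨a (z 2 - z 0)⟩ - 2 ∑ ⟨a s⟩`, `⟨x⟩ = {x} (1 - {x})`, belongs to the root system
`E₇`; at such a point it is at least sixty-six times the distance of the nearest of the sixty-three
numbers from the integers (a starting result). The mean of `K` over the conjugates is a sixth of the
difference of the two sides. The mean of the least distance is at least `t` minus the sum of the means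
of the tent functions `max (0, t - ‖x‖)` of the sixty-three numbers; for `t = 1 / 255` each of these
means is at most `5 / 154224`, for all denominators larger than one (with equality for `630`).
-/

namespace Pool.Agent.Results.MP_5e5ff1_ag.RankFourInequality

universe u

/-- Let `∇ = d/dt - (b / t + c / (t - 1))` be a system of rank four over a domain `R` of characteristic
zero and of finite type over `ℤ`, with rational exponents `lam 0 l` at `0` (the eigenvalues of `b`),
`lam 1 l` at `1` (the eigenvalues of `c`) and `lam 2 l` at infinity (the eigenvalues of `-(b + c)`).
At one of the three points, `j`, let `lam j 0 - lam j 1` and `lam j 2 - lam j 3` be integers, and let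
`x = lam (j + 1)`, `y = lam (j + 2)` be the exponents at the two other points (`j + 1`, `j + 2`
modulo three), `z = lam j`. Assume `NonRes x y z`: no difference of two exponents `x l`, or of two
exponents `y l`, with different numbers is an integer, `z 2 - z 0` is not an integer, no sum
`x i + y k + z 0` or `x i + y k + z 2` is an integer, and no sum
`x i + x i' + y k + y k' + z 0 + z 2` with `i ≠ i'`, `k ≠ k'` is an integer. Let `exc63 x y z` be twice
the sum of `gam` over the thirty-two sums `x i + y k + z 0`, `x i + y k + z 2` and over the eighteen
sums `x 0 + x i + y k + y l + z 0 + z 2` (`i ≠ 0`, `k < l`), minus seven times the sum of `gam` over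
the twelve differences of the `x l` and of the `y l`, minus sixteen times `gam (z 2 - z 0)`.

(1) For every common denominator `N` of the exponents there are at least
`85 / 25764 * (253 / 340 - exc63 x y z) * φ(N)` residue classes modulo `N`, prime to `N`, such that
the `p`-curvature is nonzero at all closed points of `Spec R` whose residue characteristic is a large
prime in one of these classes.

(2) If `exc63 x y z < 253 / 340`, or if the denominators of the sums and of the differences are all at
least `269` (`Large63`), or if these denominators have no prime factors below `13` and no denominator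
of a difference is a prime number below `347` (`Rough63`), then `exc63 x y z < 253 / 340` and the
`p`-curvatures do not vanish on a dense open subset of `Spec R`. -/
theorem result {R : Type u} [CommRing R] [IsDomain R] [CharZero R] [Algebra.FiniteType ℤ R]
    (b c : Matrix (Fin 4) (Fin 4) R) (lam : Fin 3 → Fin 4 → ℚ)
    (h0 : HasExponents b (lam 0)) (h1 : HasExponents c (lam 1))
    (h2 : HasExponents (b + c) (fun l => -lam 2 l)) (j : Fin 3)
    (hj0 : (lam j 0 - lam j 1).den = 1) (hj1 : (lam j 2 - lam j 3).den = 1)
    (hnr : NonRes (lam (j + 1)) (lam (j + 2)) (lam j)) :
    (∀ N : ℕ, 0 < N → (∀ x l, ∃ m : ℤ, (N : ℚ) * lam x l = m) →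
      NonzeroClasses (![0, 1] : Fin 2 → R) ![b, c] N
        (85 / 25764 * (253 / 340 - ((exc63 (lam (j + 1)) (lam (j + 2)) (lam j) : ℚ) : ℝ)))) ∧
    (exc63 (lam (j + 1)) (lam (j + 2)) (lam j) < 253 / 340 ∨
      Large63 (lam (j + 1)) (lam (j + 2)) (lam j) ∨
      Rough63 (lam (j + 1)) (lam (j + 2)) (lam j) →
      exc63 (lam (j + 1)) (lam (j + 2)) (lam j) < 253 / 340 ∧
        ¬ CondII (![0, 1] : Fin 2 → R) ![b, c]) := by
  refine ⟨fun N hN h3 => sys4_bad ![b, c] lam h0 h1 h2 j hj0 hj1 hnr hN h3, fun h => ?_⟩
  have hE : exc63 (lam (j + 1)) (lam (j + 2)) (lam j) < 253 / 340 := by
    rcases h with h | h4 | h4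
    · exact h
    · exact exc63_large h4
    · exact exc63_rough hnr h4
  obtain ⟨N, hN, h3⟩ : ∃ N : ℕ, 0 < N ∧ ∀ x l, ∃ m : ℤ, (N : ℚ) * lam x l = m := by
    have hden : ∀ (M : ℕ) (q : ℚ), q.den ∣ M → ∃ m : ℤ, (M : ℚ) * q = m := by
      rintro M q ⟨k, rfl⟩
      refine ⟨k * q.num, ?_⟩
      have := Rat.mul_den_eq_num q
      push_cast
      linear_combination (k : ℚ) * this
    refine ⟨∏ x, ∏ l, (lam x l).den, Finset.prod_pos fun x _ => Finset.prod_pos fun l _ =>
      (lam x l).den_pos, fun x l => hden _ _ ?_⟩
    exact (Finset.dvd_prod_of_mem (fun l => (lam x l).den) (Finset.mem_univ l)).trans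
        (Finset.dvd_prod_of_mem (fun x => ∏ l, (lam x l).den) (Finset.mem_univ x))
  refine ⟨hE, (sys4_bad ![b, c] lam h0 h1 h2 j hj0 hj1 hnr hN h3).not_condII hN ?_⟩
  have hE' : ((exc63 (lam (j + 1)) (lam (j + 2)) (lam j) : ℚ) : ℝ) < 253 / 340 := by
    have : ((exc63 (lam (j + 1)) (lam (j + 2)) (lam j) : ℚ) : ℝ) < ((253 / 340 : ℚ) : ℝ) := by
      exact_mod_cast hE
    norm_num at this
    exact this
  have : (0 : ℝ) < 253 / 340 - ((exc63 (lam (j + 1)) (lam (j + 2)) (lam j) : ℚ) : ℝ) := by
    linarith
  positivity

end Pool.Agent.Results.MP_5e5ff1_ag.RankFourInequality
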