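import Pool.Agent.Run7.h850.PE.Sys

set_option autoImplicit false

open Pool.Agent.W432.PC Run7.h850.PC Run7.h850.PE

/-!
# Rank three systems on the thrice punctured line with exponents of arbitrary denominators

For a rational number `q` with denominator `n` let `gam q` be the product of the numbers `-p` for the
primes `p` dividing `n`, divided by `n ^ 2`. Let `∇ = d/dt - (b / t + c / (t - 1))` be a system of rank
three over a domain `R` of characteristic zero, with rational exponents `lam x l`, `l = 0, 1, 2`, at
the three points `x`. Assume that the nine differences of the exponents at one point and the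
twenty-seven sums of three exponents, one at each point, are not integers (no resonance; such a system
is irreducible, it is not rigid, it has one accessory parameter, which is arbitrary here). We prove an
inequality between the denominators of these thirty-six numbers: if the `p`-curvatures vanish, then

`∑ gam (sums) ≥ 3 ∑ gam (differences) + 26 / 105`,

and in general the proportion of the residue classes modulo a common denominator of the exponents in
which the `p`-curvatures are not zero is at least `15 / 1231` times the difference between the right
side and the left side. There is no restriction on the denominators; small and even ones are allowed.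
The starting results on these systems need denominators prime to each other in a strong sense, or
large (differences at least `1400`, sums at least `300000`), or without prime factors below `47`.

Proof. If the `p`-curvatures vanish for infinitely many primes `p` with `a p = -1`, the numbers `a λ`
(`λ` the exponents) satisfy the inequalities of a stable parabolic bundle of degree zero for the line
subbundles and, replacing `a` by `-a`, for the planes (a starting result). The quadratic function
`K = 3 ∑ ⟨a d⟩ - ∑ ⟨a s⟩`, `⟨x⟩ = {x} (1 - {x})`, `d` the differences, `s` the sums, belongs to the root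
system `E₆`; at such a point it is at least twelve times the distance of the nearest of the thirty-six
numbers from the integers (a starting result). The mean of `K` over the conjugates is
`(∑ gam (s) - 3 ∑ gam (d)) / 6`. The mean of the least distance is at least `t` minus the sum of the
means of the tent functions `max (0, t - ‖x‖)` of the thirty-six numbers; for `t = 1 / 135` each of these
means is at most `1 / 9072`, for all denominators larger than one (with equality for `210`).
-/

namespace Pool.Agent.Results.MP_5e5ff1_ag.RankThreeInequality

universe u

/-- Let `∇ = d/dt - (b / t + c / (t - 1))` be a system of rank three over a domain `R` of characteristic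
zero and of finite type over `ℤ`, with rational exponents `lam 0 l` at `0` (the eigenvalues of `b`),
`lam 1 l` at `1` (the eigenvalues of `c`) and `lam 2 l` at infinity (the eigenvalues of `-(b + c)`).
Assume that no difference of two exponents with different numbers at one point is an integer, and that
no sum `lam 0 i + lam 1 j + lam 2 k` is an integer. Let `exc3 lam` be the sum of `gam` over the
twenty-seven sums minus three times the sum of `gam` over the nine differences
`lam x (q + 1) - lam x q`.

(1) For every common denominator `N` of the exponents there are at least
`15 / 1231 * (26 / 105 - exc3 lam) * φ(N)` residue classes modulo `N`, prime to `N`, such that the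
`p`-curvature is nonzero at all closed points of `Spec R` whose residue characteristic is a large
prime in one of these classes.

(2) If `exc3 lam < 26 / 105`, or if the denominators of the sums and of the differences are all at
least `219`, or if these denominators have no prime factors below `11` and no denominator of a
difference is a prime number below `461`, then `exc3 lam < 26 / 105` and the `p`-curvatures do not
vanish on a dense open subset of `Spec R`. -/
theorem result {R : Type u} [CommRing R] [IsDomain R] [CharZero R] [Algebra.FiniteType ℤ R]
    (b c : Matrix (Fin 3) (Fin 3) R) (lam : Fin 3 → Fin 3 → ℚ)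
    (h0 : HasExponents b (lam 0)) (h1 : HasExponents c (lam 1))
    (h2 : HasExponents (b + c) (fun l => -lam 2 l))
    (hθ : ∀ x l l', l ≠ l' → (lam x l - lam x l').den ≠ 1)
    (hs : ∀ i j k, (lam 0 i + lam 1 j + lam 2 k).den ≠ 1) :
    (∀ N : ℕ, 0 < N → (∀ x l, ∃ m : ℤ, (N : ℚ) * lam x l = m) →
      NonzeroClasses (![0, 1] : Fin 2 → R) ![b, c] N
        (15 / 1231 * (26 / 105 - ((exc3 lam : ℚ) : ℝ)))) ∧
    (exc3 lam < 26 / 105 ∨
      ((∀ i j k, 219 ≤ (lam 0 i + lam 1 j + lam 2 k).den) ∧
        ∀ x l l', l ≠ l' → 219 ≤ (lam x l - lam x l').den) ∨
      ((∀ i j k, Rough11 (lam 0 i + lam 1 j + lam 2 k)) ∧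
        (∀ x l l', Rough11 (lam x l - lam x l')) ∧
        ∀ x l l', (lam x l - lam x l').den.Prime → 461 ≤ (lam x l - lam x l').den) →
      exc3 lam < 26 / 105 ∧ ¬ CondII (![0, 1] : Fin 2 → R) ![b, c]) := by
  refine ⟨fun N hN h3 => sys3_bad b c lam h0 h1 h2 hθ hs hN h3, fun h => ?_⟩
  have hE : exc3 lam < 26 / 105 := by
    rcases h with h | ⟨h4, h5⟩ | ⟨h4, h5, h6⟩
    · exact h
    · exact exc3_large h4 h5
    · exact exc3_rough hs hθ h4 h5 h6
  obtain ⟨N, hN, h3⟩ : ∃ N : ℕ, 0 < N ∧ ∀ x l, ∃ m : ℤ, (N : ℚ) * lam x l = m := by
    have hden : ∀ (M : ℕ) (q : ℚ), q.den ∣ M → ∃ m : ℤ, (M : ℚ) * q = m := by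
      rintro M q ⟨k, rfl⟩
      refine ⟨k * q.num, ?_⟩
      have := Rat.mul_den_eq_num q
      push_cast
      linear_combination (k : ℚ) * this
    refine ⟨∏ x, ∏ l, (lam x l).den, Finset.prod_pos fun x _ => Finset.prod_pos fun l _ =>
      (lam x l).den_pos, fun x l => hden _ _ ?_⟩
    exact (Finset.dvd_prod_of_mem (fun l => (lam x l).den) (Finset.mem_univ l)).trans
        (Finset.dvd_prod_of_mem (fun x => ∏ l, (lam x l).den) (Finset.mem_univ x))
  refine ⟨hE, (sys3_bad b c lam h0 h1 h2 hθ hs hN h3).not_condII hN ?_⟩
  have hE' : ((exc3 lam : ℚ) : ℝ) < 26 / 105 := by
    have : ((exc3 lam : ℚ) : ℝ) < ((26 / 105 : ℚ) : ℝ) := by exact_mod_cast hE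
    norm_num at this
    exact this
  have : (0 : ℝ) < 26 / 105 - ((exc3 lam : ℚ) : ℝ) := by linarith
  positivity

end Pool.Agent.Results.MP_5e5ff1_ag.RankThreeInequality
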