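import Mathlib
import Pool.Agent.Run7.h143.PC.V3

set_option autoImplicit false

/-!
Primes with nonzero `p`-curvature have positive upper density, uniformly in the rank, for systems over number
fields with bounded total defect of the `p`-adic radii of convergence.
-/

namespace Pool.Agent.Results.MP_5e5ff1_ag.UpperDensityAllRanks

open Pool.Agent.Run7.h143.PC Pool.Agent.Run7.h143.PC.Rates

/-- **Positive upper density of the nonzero `p`-curvatures, uniformly in the rank.**
The curve is the projective line without `0`, `1`, `∞` (`β = log 3 / 2 + log 16 / 3 = 1.47...`) or the affine line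
without the `m`-th roots of unity, for any `m` (`β = log 16 / m`), see `IsCurve`; `c` is its base point. The systems
are `N₀ q^k Y' = A Y`, where `A` is a matrix of polynomials over a ring `R` which is finite and free over
the integers and `N₀`, `k`, the degree of `A` and the rank are arbitrary: these are all systems on the curve with
coefficients in a number field, in particular all systems `df = (b dt/t + c dt/(t-1)) f`. The defect at `p` is at
most `g_p` (the `p`-adic generic radius of convergence is at least `p^(-g_p)`), the growth of the denominators is of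
order at most `r` at the primes which do not divide `N₀`, and the total defect `∑ g_p log p` is at most `τ < β`.

There is `N`, which depends only on the curve and on `τ`, and for every `r` there is `δ > 0`, such that for every
such system, of any rank, over any ring: all solutions lie in one extension of `ℂ(x)` of degree at most `N`, or there
are at least `δ x / log x` primes `p ≤ x`, not dividing `N₀`, with nonzero `p`-curvature, for arbitrarily large
`x`. -/
theorem result :
    ∀ (c : ℂ) (q : Polynomial ℤ) (β : ℝ), IsCurve c q β → ∀ τ : ℝ, 0 ≤ τ → τ < β → ∃ N : ℕ,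
      ∀ r : ℕ, ∃ δ : ℝ, 0 < δ ∧ ∀ (R : Type) [CommRing R] [Module.Free ℤ R] [Module.Finite ℤ R]
        (ρ : R →+* ℂ) (n N₀ k : ℕ) (A : Matrix (Fin n) (Fin n) (Polynomial R)) (g : ℕ → ℝ),
        N₀ ≠ 0 → TotalDefect g τ →
        (∀ p : ℕ, p.Prime → p ∣ N₀ → RadiusGe (lead R q N₀ k) A N₀ p (g p)) →
        (∀ p : ℕ, p.Prime → ¬ p ∣ N₀ → GrowthLe (lead R q N₀ k) A p (g p) r) →
        AlgebraicOfDegree ρ c (lead R q N₀ k) A N ∨
        ∀ x₀ : ℕ, ∃ x : ℕ, x₀ ≤ x ∧
          δ * (x / Real.log x) ≤ (nonzeroPrimes (lead R q N₀ k) A N₀ x).ncard :=
  fun _ _ _ h _ hτ0 hτ => upperV3 h hτ0 hτ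

end Pool.Agent.Results.MP_5e5ff1_ag.UpperDensityAllRanks
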